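import Pool.Agent.Q214.BH.Space

set_option autoImplicit false

/-!
# Project BH: coding of decorated trees by sequences
-/

namespace Pool.Agent.Q214.BH

open Topology TopologicalSpace Set

/-- the moves of the games -/
abbrev Mv : Type := ℕ × Bool

section

variable {Γ Q : Type} [Group Γ] [Encodable (Ns Γ)]

/-- the time of the digit `i` at the address `l` -/
def pos (l : List (Ns Γ)) (i : ℕ) : ℕ := Nat.pair (Encodable.encode l) i

lemma pos_inj {l l' : List (Ns Γ)} {i i' : ℕ} (h : pos l i = pos l' i') : l = l' ∧ i = i' := by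
  unfold pos at h
  obtain ⟨h1, h2⟩ := Nat.pair_eq_pair.1 h
  exact ⟨Encodable.encode_injective h1, h2⟩

lemma pos_lt (a : Ns Γ) (l : List (Ns Γ)) (i : ℕ) : pos l i < pos (a :: l) i := by
  unfold pos
  refine Nat.pair_lt_pair_left i ?_
  rw [Encodable.encode_list_cons]
  exact Nat.lt_succ_of_le (Nat.right_le_pair _ _)

/-- the sequence with given digits -/
def enc (t : List (Ns Γ) → ℕ → Mv) (n : ℕ) : Mv :=
  match Encodable.decode₂ (List (Ns Γ)) (Nat.unpair n).1 with
  | some l => t l (Nat.unpair n).2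
  | none => (0, false)

lemma enc_pos (t : List (Ns Γ) → ℕ → Mv) (l : List (Ns Γ)) (i : ℕ) : enc t (pos l i) = t l i := by
  simp [enc, pos]

lemma exists_pos (n : ℕ) : (∃ l : List (Ns Γ), ∃ i, n = pos l i) ∨
    ∀ t : List (Ns Γ) → ℕ → Mv, enc t n = (0, false) := by
  cases h : Encodable.decode₂ (List (Ns Γ)) (Nat.unpair n).1 with
  | none => right; intro t; simp [enc, h]
  | some l =>
    left
    refine ⟨l, (Nat.unpair n).2, ?_⟩
    have h1 : Encodable.encode l = (Nat.unpair n).1 := Encodable.mem_decode₂.1 h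
    unfold pos
    rw [h1, Nat.pair_unpair]

/-- the tree of a sequence -/
def dec (ρ : (ℕ → ℕ) → Q) (x : ℕ → Mv) : Tr Γ Q :=
  fun l => (ρ (fun i => (x (pos l i)).1), (x (pos l 0)).2)

/-- change the bit at the root -/
def setb (Γ : Type) [Group Γ] [Encodable (Ns Γ)] (c : Bool) (x : ℕ → Mv) : ℕ → Mv :=
  fun n => if n = pos ([] : List (Ns Γ)) 0 then ((x n).1, c) else x n

lemma setb_fst (c : Bool) (x : ℕ → Mv) (n : ℕ) : (setb Γ c x n).1 = (x n).1 := by
  unfold setb; split <;> rfl

lemma dec_setb (ρ : (ℕ → ℕ) → Q) (c : Bool) (x : ℕ → Mv) :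
    (dec ρ (setb Γ c x) : Tr Γ Q) = setB c (dec ρ x) := by
  funext l
  cases l with
  | nil =>
    simp only [dec, setB, setb_fst]
    simp [setb]
  | cons a l =>
    have h1 : pos (a :: l) 0 ≠ pos ([] : List (Ns Γ)) 0 := fun h => by
      have := (pos_inj h).1; simp at this
    simp only [dec, setB, setb_fst]
    have h2 : setb Γ c x (pos (a :: l) 0) = x (pos (a :: l) 0) := by simp [setb, h1]
    rw [h2]

lemma setb_congr {c : Bool} {x x' : ℕ → Mv} {n : ℕ} (h : x n = x' n) :
    setb Γ c x n = setb Γ c x' n := by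
  unfold setb; rw [h]

variable [MulAction Γ Q]

/-- the side of the vertex at the exit `γ` -/
def sideA (j : Q → ℕ → ℕ) (a : Q) (b : ℕ → Γ → Mv) (γ : Γ) : List (Ns Γ) → ℕ → Mv
  | [] => fun i => (j (γ • a) i, false)
  | δ :: l => fun i => b (pos l i) (δ.1 * γ)

lemma enc_sideA_congr (j : Q → ℕ → ℕ) (a : Q) {b b' : ℕ → Γ → Mv} (γ : Γ) {n : ℕ}
    (h : ∀ m, m < n → b m = b' m) : enc (sideA j a b γ) n = enc (sideA j a b' γ) n := by
  rcases exists_pos (Γ := Γ) n with ⟨l, i, rfl⟩ | h1
  · rw [enc_pos, enc_pos]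
    cases l with
    | nil => rfl
    | cons δ l => simp only [sideA]; rw [h _ (pos_lt δ l i)]
  · rw [h1, h1]

/-- the point of the space -/
def psi (ρ : (ℕ → ℕ) → Q) (k : Fin 3) (a : Q) (b : ℕ → Γ → Mv) : YY Γ Q :=
  (k, a, fun γ => dec ρ (fun n => b n γ))

lemma actG_psi (j : Q → ℕ → ℕ) (ρ : (ℕ → ℕ) → Q) (hρ : ∀ q, ρ (j q) = q) (k : Fin 3) (a : Q)
    (b : ℕ → Γ → Mv) (γ : Γ) :
    actG γ (psi ρ k a b) = glue k (dec ρ (enc (sideA j a b γ))) (dec ρ (fun n => b n γ)) := by
  refine YY.ext' ?_ ?_ ?_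
  · rfl
  · simp only [actG, psi, glue, dec, enc_pos, sideA]
    exact (hρ _).symm
  · intro δ l
    by_cases h : δ = 1
    · subst h
      simp [actG, psi, glue]
    · simp only [actG, psi, glue, h, dite_false, dec, enc_pos, sideA]

end

section

variable {Γ Q : Type} [Group Γ] [Encodable (Ns Γ)] [TopologicalSpace Q]

lemma continuous_enc {Z : Type} [TopologicalSpace Z] (t : Z → List (Ns Γ) → ℕ → Mv)
    (h : ∀ l i, Continuous fun z => t z l i) : Continuous fun z => enc (t z) := by
  refine continuous_pi fun n => ?_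
  rcases exists_pos (Γ := Γ) n with ⟨l, i, rfl⟩ | h1
  · simp only [enc_pos]; exact h l i
  · simp only [h1]; exact continuous_const

lemma continuous_dec {ρ : (ℕ → ℕ) → Q} (hρ : Continuous ρ) :
    Continuous (dec ρ : (ℕ → Mv) → Tr Γ Q) := by
  refine continuous_pi fun l => ?_
  refine Continuous.prodMk (hρ.comp (continuous_pi fun i => ?_)) ?_
  · exact continuous_fst.comp (continuous_apply _)
  · exact continuous_snd.comp (continuous_apply _)

/-- a causal map is continuous -/
lemma continuous_causal {X : Type} [TopologicalSpace X] [DiscreteTopology X] [Nonempty X]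
    (s : (ℕ → X) → (ℕ → X)) (h : ∀ a a' n, (∀ m, m ≤ n → a m = a' m) → s a n = s a' n) :
    Continuous s := by
  refine continuous_pi fun n => ?_
  let r : (ℕ → X) → (Fin (n + 1) → X) := fun x i => x i
  have hr : Continuous r := continuous_pi fun i => continuous_apply _
  let g : (Fin (n + 1) → X) → X := fun y =>
    s (fun m => if h : m < n + 1 then y ⟨m, h⟩ else Classical.arbitrary X) n
  have hg : Continuous g := continuous_of_discreteTopology
  have h1 : (fun x => s x n) = g ∘ r := by
    funext x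
    refine h _ _ n fun m hm => ?_
    have h2 : m < n + 1 := Nat.lt_succ_of_le hm
    simp [r, h2]
  rw [h1]
  exact hg.comp hr

variable [MulAction Γ Q]

lemma continuous_sideA {j : Q → ℕ → ℕ} (hj : Continuous j)
    (hc : ∀ γ : Γ, Continuous (fun x : Q => γ • x)) (γ : Γ) :
    Continuous fun z : Q × (ℕ → Γ → Mv) => enc (sideA j z.1 z.2 γ) := by
  refine continuous_enc _ fun l i => ?_
  cases l with
  | nil =>
    simp only [sideA]
    exact Continuous.prodMk ((continuous_apply i).comp (hj.comp ((hc γ).comp continuous_fst)))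
      continuous_const
  | cons δ l =>
    simp only [sideA]
    exact (continuous_apply _).comp ((continuous_apply _).comp continuous_snd)

omit [MulAction Γ Q] in
lemma continuous_psi {ρ : (ℕ → ℕ) → Q} (hρ : Continuous ρ) (k : Fin 3) :
    Continuous fun z : Q × (ℕ → Γ → Mv) => (psi ρ k z.1 z.2 : YY Γ Q) := by
  refine continuous_mk continuous_const continuous_fst ?_
  intro δ l
  have h1 : Continuous fun z : Q × (ℕ → Γ → Mv) => fun n => z.2 n δ :=
    continuous_pi fun n => (continuous_apply _).comp ((continuous_apply _).comp continuous_snd)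
  exact (continuous_apply l).comp ((continuous_dec hρ).comp h1)

end

end Pool.Agent.Q214.BH
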