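import Pool.Agent.Q214.BH.Code
import Pool.Agent.Helper220.MG.ZeroDim

set_option autoImplicit false

/-!
# Project BH: the control lemma
-/

namespace Pool.Agent.Q214.BH

open Topology TopologicalSpace Set

section

variable {Γ Q : Type} [Group Γ] [Encodable (Ns Γ)] [MulAction Γ Q]

/-- the second player wins at `y` -/
def Win2 (β : Fr Γ Q → Bool) (N : Set (YY Γ Q)) (c : Bool) (y : YY Γ Q) : Prop :=
  (∃ h : y ∈ Fr Γ Q, β ⟨y, h⟩ = c) ∨ (y ∉ Fr Γ Q ∧ y ∉ N)

omit [Encodable (Ns Γ)] in
lemma not_both {β : Fr Γ Q → Bool} {N : Set (YY Γ Q)} (hβ : ∀ x, β (tau Γ • x) ≠ β x)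
    (hN : ∀ x ∈ N, tau Γ • x ∉ N) (c : Bool) (y : YY Γ Q) (h1 : ¬ Win2 β N c y)
    (h2 : ¬ Win2 β N c (tauY y)) : False := by
  unfold Win2 at h1 h2
  push Not at h1 h2
  by_cases hy : y ∈ Fr Γ Q
  · have hy' : tauY y ∈ Fr Γ Q := by rw [← smul_tau]; exact smul_mem_Fr _ hy
    have h3 := h1.1 hy
    have h4 := h2.1 hy'
    have h5 : (tau Γ • (⟨y, hy⟩ : Fr Γ Q)) = ⟨tauY y, hy'⟩ := by
      apply Subtype.ext
      rw [coe_smul, smul_tau]
    have h6 := hβ ⟨y, hy⟩
    rw [h5] at h6
    revert h3 h4 h6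
    cases β ⟨y, hy⟩ <;> cases β ⟨tauY y, hy'⟩ <;> cases c <;> simp
  · have hy' : tauY y ∉ Fr Γ Q := by rw [← smul_tau, smul_mem_Fr_iff]; exact hy
    have h3 := h1.2 hy
    have h4 := h2.2 hy'
    have h5 := hN y h3
    rw [smul_tau] at h5
    exact h5 h4

/-- the first player does not win two of the games with the same `c` -/
lemma paste (hF : S_FIX) (ρ : (ℕ → ℕ) → Q) {β : Fr Γ Q → Bool} {N : Set (YY Γ Q)}
    (hβ : ∀ x, β (tau Γ • x) ≠ β x) (hN : ∀ x ∈ N, tau Γ • x ∉ N) (c : Bool) (k k' : Fin 3)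
    (hk : k ≠ k') (s s' : (ℕ → Mv) → (ℕ → Mv))
    (hs : ∀ b b' n, (∀ m, m < n → b m = b' m) → s b n = s b' n)
    (hs' : ∀ b b' n, (∀ m, m < n → b m = b' m) → s' b n = s' b' n)
    (h1 : ∀ b, ¬ Win2 β N c (glue k (dec ρ (s b)) (dec ρ b)))
    (h2 : ∀ b, ¬ Win2 β N c (glue k' (dec ρ (s' b)) (dec ρ b))) : False := by
  obtain ⟨e, he⟩ := exists_stp k k' hk
  have hcont : Continuous s := continuous_causal s
    (fun a a' n h => hs a a' n fun m hm => h m hm.le)
  have hcont' : Continuous s' := continuous_causal s'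
    (fun a a' n h => hs' a a' n fun m hm => h m hm.le)
  have hsc : ∀ d, Continuous (setb Γ d) := fun d => continuous_causal _
    (fun a a' n h => setb_congr (h n le_rfl))
  obtain ⟨F, -, hFix, -⟩ := hF Unit Mv (fun _ a => s (setb Γ e (s' (setb Γ (!e) a))))
    (hcont.comp ((hsc e).comp (hcont'.comp ((hsc (!e)).comp continuous_snd))))
    (by
      intro _ y y' n h
      refine hs _ _ n fun m hm => setb_congr ?_
      refine hs' _ _ m fun l hl => setb_congr ?_
      exact h l (hl.trans hm))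
  set a := F () with ha
  have hfix : s (setb Γ e (s' (setb Γ (!e) a))) = a := hFix ()
  have h3 := h1 (setb Γ e (s' (setb Γ (!e) a)))
  rw [hfix] at h3
  have h4 := h2 (setb Γ (!e) a)
  refine not_both hβ hN c _ h3 ?_
  rw [tauY_glue, dec_setb]
  have h5 : (setB e (dec ρ (s' (setb Γ (!e) a)) : Tr Γ Q) []).2 = e := rfl
  rw [h5, glue_setB, ← dec_setb, ← he]
  exact h4

end

/-- the control lemma -/
theorem ctl_of (hE : S_EMB) (hD : S_DET) (hF : S_FIX) (hZ : S_ZD) (hNF : S_NF) : S_CTL := by
  intro Γ _ _ Q _ _ _ hQ hc hfree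
  have hPF : PolishSpace (Fr Γ Q) := Pool.Agent.Helper220.MG.polish_of_isGdelta (isGδ_Fr hc)
  refine ⟨Fr Γ Q, inferInstance, hPF, instFr, ?_, ?_, ?_, ?_⟩
  · exact hZ.2.2.1 _ _ _ IsInducing.subtypeVal (zdYY hZ hQ)
  · intro γ
    exact Continuous.subtype_mk ((continuous_FP hc γ).comp continuous_subtype_val) _
  · intro γ x hx
    exact x.2 γ (congrArg Subtype.val hx)
  · intro β hβm hβ p hp
    rcases isEmpty_or_nonempty Q with hQe | hQn
    · exact ⟨fun a => (hQe.false a).elim, continuous_of_const fun a => (hQe.false a).elim,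
        fun γ a => (hQe.false a).elim, fun a => (hQe.false a).elim⟩
    obtain ⟨j, ρ, hj, hρ, hjρ⟩ := hE Q hQ
    let _ : Encodable (Ns Γ) := Encodable.ofCountable _
    let _ : MeasurableSpace (YY Γ Q) := borel _
    have _ : BorelSpace (YY Γ Q) := ⟨rfl⟩
    -- the Borel set of the non-free part
    obtain ⟨N, hNm, hN1, hN2⟩ := hNF Γ (YY Γ Q) (fun γ => (continuous_FP hc γ).measurable)
      (fun γ x hx => by
        rw [smul_inl] at hx
        exact hfree γ x.2.1 (congrArg (fun y : YY Γ Q => y.2.1) hx))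
      (fun x => by rw [smul_tau]; exact tauY_ne x)
    -- the payoff is Borel
    have hFrm : MeasurableSet (Fr Γ Q) := (isGδ_Fr hc).measurableSet
    have hWm : ∀ c, MeasurableSet {y | Win2 β N c y} := by
      intro c
      have hb : MeasurableSet {x : Fr Γ Q | β x = c} := by
        have hborel : (Subtype.instMeasurableSpace : MeasurableSpace (Fr Γ Q)) =
            borel (Fr Γ Q) := BorelSpace.measurable_eq
        have h1 : MeasurableSet {x : Fr Γ Q | β x = true} := by
          rw [hborel]; exact hβm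
        cases c
        · have h2 : {x : Fr Γ Q | β x = false} = {x : Fr Γ Q | β x = true}ᶜ := by
            ext x; simp
          rw [h2]; exact h1.compl
        · exact h1
      have h1 : {y | Win2 β N c y} =
          (Subtype.val '' {x : Fr Γ Q | β x = c}) ∪ ((Fr Γ Q)ᶜ ∩ Nᶜ) := by
        ext y
        simp only [Win2, mem_ofPred_eq, mem_union, mem_image, Subtype.exists, mem_inter_iff,
          mem_compl_iff, exists_and_right, exists_eq_right]
      rw [h1]
      exact (hFrm.subtype_image hb).union (hFrm.compl.inter hNm.compl)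
    -- determinacy
    have hdet : ∀ c k, (∃ s : (ℕ → Mv) → (ℕ → Mv),
        (∀ b b' n, (∀ m, m < n → b m = b' m) → s b n = s b' n) ∧
          ∀ b, ¬ Win2 β N c (glue k (dec ρ (s b)) (dec ρ b))) ∨
        (∃ s : (ℕ → Mv) → (ℕ → Mv),
        (∀ a a' n, (∀ m, m ≤ n → a m = a' m) → s a n = s a' n) ∧
          ∀ a, Win2 β N c (glue k (dec ρ a) (dec ρ (s a)))) := by
      intro c k
      have hcont : Continuous (fun z : (ℕ → Mv) × (ℕ → Mv) =>
          (glue k (dec ρ z.1) (dec ρ z.2) : YY Γ Q)) :=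
        (continuous_glue k).comp (((continuous_dec hρ).comp continuous_fst).prodMk
          ((continuous_dec hρ).comp continuous_snd))
      have hm : @MeasurableSet _ (borel ((ℕ → Mv) × (ℕ → Mv)))
          {z | ¬ Win2 β N c (glue k (dec ρ z.1) (dec ρ z.2))} := by
        let _ : MeasurableSpace ((ℕ → Mv) × (ℕ → Mv)) := borel _
        have _ : BorelSpace ((ℕ → Mv) × (ℕ → Mv)) := ⟨rfl⟩
        exact (hcont.measurable (hWm c)).compl
      rcases hD Mv _ hm with ⟨s, h1, h2⟩ | ⟨s, h1, h2⟩
      · exact Or.inl ⟨s, h1, h2⟩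
      · refine Or.inr ⟨s, h1, fun a => ?_⟩
        have := h2 a
        simp only [mem_ofPred_eq, not_not] at this
        exact this
    -- a colour for which the second player wins both games
    have hk : ∃ k : Fin 3, ∀ c, ∃ s : (ℕ → Mv) → (ℕ → Mv),
        (∀ a a' n, (∀ m, m ≤ n → a m = a' m) → s a n = s a' n) ∧
          ∀ a, Win2 β N c (glue k (dec ρ a) (dec ρ (s a))) := by
      by_contra hno
      push Not at hno
      have h1 : ∀ k : Fin 3, ∃ c, ∃ s : (ℕ → Mv) → (ℕ → Mv),
        (∀ b b' n, (∀ m, m < n → b m = b' m) → s b n = s b' n) ∧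
          ∀ b, ¬ Win2 β N c (glue k (dec ρ (s b)) (dec ρ b)) := by
        intro k
        obtain ⟨c, hc'⟩ := hno k
        refine ⟨c, ?_⟩
        rcases hdet c k with h | ⟨s, h2, h3⟩
        · exact h
        · obtain ⟨a, ha⟩ := hc' s h2
          exact absurd (h3 a) ha
      choose cc s hs1 hs2 using h1
      obtain ⟨k, k', hkk, hcc⟩ := Fintype.exists_ne_map_eq_of_card_lt cc (by simp)
      refine paste hF ρ hβ hN2 (cc k) k k' hkk (s k) (s k') (hs1 k) (hs1 k') (hs2 k) ?_
      rw [hcc]
      exact hs2 k'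
    obtain ⟨k, hk⟩ := hk
    choose σ hσ1 hσ2 using hk
    -- the fixed point
    have hσc : ∀ c, Continuous (σ c) := fun c => continuous_causal _ (hσ1 c)
    obtain ⟨b, hbc, hb1, hb2⟩ := hF Q (Γ → Mv)
      (fun a b n γ => σ (p (γ • a)) (enc (sideA j a b γ)) n)
      (by
        refine continuous_pi fun n => continuous_pi fun γ => ?_
        have h1 : Continuous (fun z : Bool × (ℕ → Mv) => σ z.1 z.2) :=
          continuous_prod_of_discrete_left.mpr hσc
        have h2 : Continuous (fun z : Q × (ℕ → Γ → Mv) => (p (γ • z.1),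
            enc (sideA j z.1 z.2 γ))) :=
          (hp.comp ((hc γ).comp continuous_fst)).prodMk (continuous_sideA hj hc γ)
        exact (continuous_apply n).comp (h1.comp h2))
      (by
        intro a y y' n h
        funext γ
        refine hσ1 _ _ _ n fun m hm => ?_
        exact enc_sideA_congr j a γ fun l hl => h l (lt_of_lt_of_le hl hm))
    have hbfix : ∀ a γ, (fun n => b a n γ) = σ (p (γ • a)) (enc (sideA j a (b a) γ)) := by
      intro a γ
      funext n
      exact (congrFun (congrFun (hb1 a) n) γ).symm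
    have hwin : ∀ a γ, Win2 β N (p (γ • a)) (actG γ (psi ρ k a (b a))) := by
      intro a γ
      rw [actG_psi j ρ hjρ k a (b a) γ]
      have h1 := hσ2 (p (γ • a)) (enc (sideA j a (b a) γ))
      rw [← hbfix a γ] at h1
      exact h1
    have hmem : ∀ a, psi ρ k a (b a) ∈ Fr Γ Q := by
      intro a
      by_contra hno
      have h1 : ∃ g : FP Γ, g ≠ 1 ∧ g • psi ρ k a (b a) = psi ρ k a (b a) := by
        simp only [Fr, mem_ofPred_eq, not_forall] at hno
        obtain ⟨g, h2, h3⟩ := hno
        exact ⟨g, h3, h2⟩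
      obtain ⟨γ, hγ⟩ := hN1 _ h1
      rw [smul_inl] at hγ
      rcases hwin a γ with ⟨h2, -⟩ | ⟨-, h2⟩
      · rw [← smul_inl, smul_mem_Fr_iff] at h2
        exact hno h2
      · exact h2 hγ
    refine ⟨fun a => ⟨psi ρ k a (b a), hmem a⟩, ?_, ?_, ?_⟩
    · refine Continuous.subtype_mk ?_ _
      exact (continuous_psi hρ k).comp (continuous_id.prodMk hbc)
    · intro γ a
      apply Subtype.ext
      rw [coe_smul, smul_inl]
      have h1 : (fun n δ => b a n (δ * γ)) = b (γ • a) := by
        refine hb2 (γ • a) _ ?_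
        funext n δ
        have h2 := congrFun (hbfix a (δ * γ)) n
        rw [h2, mul_smul]
        have h3 : sideA j (γ • a) (fun n δ => b a n (δ * γ)) δ = sideA j a (b a) (δ * γ) := by
          funext l i
          cases l with
          | nil => simp only [sideA, mul_smul]
          | cons ε l => simp only [sideA, mul_assoc]
        rw [h3]
      change psi ρ k (γ • a) (b (γ • a)) = actG γ (psi ρ k a (b a))
      rw [← h1]
      rfl
    · intro a
      rcases hwin a 1 with ⟨h2, h3⟩ | ⟨h2, -⟩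
      · simp only [one_smul] at h3
        rw [← h3]
        congr 1
        apply Subtype.ext
        exact (actG_one _).symm
      · rw [actG_one] at h2
        exact absurd (hmem a) h2

end Pool.Agent.Q214.BH
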