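import Pool.Agent.Q214.BH.Stm2
import Pool.Agent.Q203.BD.Main

set_option autoImplicit false

/-!
# Project BH: determinacy and fixed points
-/

namespace Pool.Agent.Q214.BH

open Topology TopologicalSpace Set Q203.BD

section

variable {X : Type}

/-- the histories when the odd moves are given -/
def hE (σ : List X → X) (b : ℕ → X) : ℕ → List X
  | 0 => []
  | n + 1 => (if Even n then σ (hE σ b n) else b (n / 2)) :: hE σ b n

/-- the play when the odd moves are given -/
def zE (σ : List X → X) (b : ℕ → X) (n : ℕ) : X :=
  if Even n then σ (hE σ b n) else b (n / 2)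

lemma hist_zE (σ : List X → X) (b : ℕ → X) (n : ℕ) : hist (zE σ b) n = hE σ b n := by
  induction n with
  | zero => rfl
  | succ n ih => rw [hist_succ, ih]; rfl

lemma hE_congr (σ : List X → X) {b b' : ℕ → X} {k : ℕ} (h : ∀ m, 2 * m + 1 < k → b m = b' m) :
    hE σ b k = hE σ b' k := by
  induction k with
  | zero => rfl
  | succ k ih =>
    have h1 := ih fun m hm => h m (by omega)
    simp only [hE]
    rw [h1]
    by_cases hk : Even k
    · simp [hk]
    · simp only [hk, if_false]
      rw [h (k / 2)]
      rw [Nat.not_even_iff_odd] at hk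
      obtain ⟨r, rfl⟩ := hk
      omega

/-- the histories when the even moves are given -/
def hO (σ : List X → X) (a : ℕ → X) : ℕ → List X
  | 0 => []
  | n + 1 => (if Even n then a (n / 2) else σ (hO σ a n)) :: hO σ a n

/-- the play when the even moves are given -/
def zO (σ : List X → X) (a : ℕ → X) (n : ℕ) : X :=
  if Even n then a (n / 2) else σ (hO σ a n)

lemma hist_zO (σ : List X → X) (a : ℕ → X) (n : ℕ) : hist (zO σ a) n = hO σ a n := by
  induction n with
  | zero => rfl
  | succ n ih => rw [hist_succ, ih]; rfl

lemma hO_congr (σ : List X → X) {a a' : ℕ → X} {k : ℕ} (h : ∀ m, 2 * m < k → a m = a' m) :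
    hO σ a k = hO σ a' k := by
  induction k with
  | zero => rfl
  | succ k ih =>
    have h1 := ih fun m hm => h m (by omega)
    simp only [hO]
    rw [h1]
    by_cases hk : Even k
    · simp only [hk, if_true]
      rw [h (k / 2)]
      obtain ⟨r, rfl⟩ := hk
      omega
    · simp [hk]

end

/-- DET -/
theorem det : S_DET := by
  intro X _ _ _ _ W hW
  have hc : Continuous (fun z : ℕ → X => (fun n => z (2 * n), fun n => z (2 * n + 1))) :=
    (continuous_pi fun n => continuous_apply _).prodMk (continuous_pi fun n => continuous_apply _)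
  have hA : @MeasurableSet (ℕ → X) (borel (ℕ → X))
      {z | ((fun n => z (2 * n), fun n => z (2 * n + 1)) : (ℕ → X) × (ℕ → X)) ∈ W} := by
    let _ : MeasurableSpace ((ℕ → X) × (ℕ → X)) := borel _
    have _ : BorelSpace ((ℕ → X) × (ℕ → X)) := ⟨rfl⟩
    let _ : MeasurableSpace (ℕ → X) := borel _
    have _ : BorelSpace (ℕ → X) := ⟨rfl⟩
    exact hc.measurable hW
  rcases borel_determinacy hA with ⟨σ, h⟩ | ⟨σ, h⟩
  · left
    refine ⟨fun b n => zE σ b (2 * n), ?_, ?_⟩
    · intro b b' n hb
      have h1 : Even (2 * n) := even_two_mul n
      simp only [zE, h1, if_true]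
      rw [hE_congr σ fun m hm => hb m (by omega)]
    · intro b
      have h1 := h (zE σ b) (fun n hn => by
        rw [hist_zE]; simp [zE, hn])
      simp only [mem_ofPred_eq] at h1
      have h2 : (fun n => zE σ b (2 * n + 1)) = b := by
        funext n
        have h3 : ¬ Even (2 * n + 1) := by
          rw [Nat.not_even_iff_odd]; exact odd_two_mul_add_one n
        simp only [zE, h3, if_false]
        congr 1
        omega
      rw [h2] at h1
      exact h1
  · right
    refine ⟨fun a n => zO σ a (2 * n + 1), ?_, ?_⟩
    · intro a a' n ha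
      have h3 : ¬ Even (2 * n + 1) := by
        rw [Nat.not_even_iff_odd]; exact odd_two_mul_add_one n
      simp only [zO, h3, if_false]
      rw [hO_congr σ fun m hm => ha m (by omega)]
    · intro a
      have h1 := h (zO σ a) (fun n hn => by
        rw [hist_zO]; simp [zO, hn])
      simp only [mem_ofPred_eq] at h1
      have h2 : (fun n => zO σ a (2 * n)) = a := by
        funext n
        have h3 : Even (2 * n) := even_two_mul n
        simp only [zO, h3, if_true]
        congr 1
        omega
      rw [h2] at h1
      exact h1

/-- FIX -/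
theorem fix : S_FIX := by
  intro P Y _ _ _ Φ hc hs
  let y0 : ℕ → Y := fun _ => Classical.arbitrary Y
  let G : P → ℕ → ℕ → Y := fun p k => (Φ p)^[k] y0
  have hG : ∀ p k, G p (k + 1) = Φ p (G p k) := fun p k => Function.iterate_succ_apply' _ _ _
  have hstab : ∀ p n k, n < k → G p k n = G p (k + 1) n := by
    intro p n
    induction n using Nat.strong_induction_on with
    | _ n ih =>
      intro k hk
      obtain ⟨k', rfl⟩ : ∃ k', k = k' + 1 := ⟨k - 1, by omega⟩
      rw [hG p k', hG p (k' + 1)]
      exact hs p _ _ n fun m hm => ih m hm k' (by omega)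
  have hstab2 : ∀ p n k, n < k → G p k n = G p (n + 1) n := by
    intro p n k hk
    induction k with
    | zero => omega
    | succ k ih =>
      rcases Nat.lt_succ_iff_lt_or_eq.1 hk with h | h
      · rw [← hstab p n k h]; exact ih h
      · rw [h]
  refine ⟨fun p n => G p (n + 1) n, ?_, ?_, ?_⟩
  · refine continuous_pi fun n => ?_
    have h1 : ∀ k, Continuous (fun p => G p k) := by
      intro k
      induction k with
      | zero => exact continuous_const
      | succ k ih =>
        have h2 : (fun p => G p (k + 1)) = fun p => Φ p (G p k) := funext fun p => hG p k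
        rw [h2]
        exact hc.comp (continuous_id.prodMk ih)
    exact (continuous_apply n).comp (h1 (n + 1))
  · intro p
    funext n
    have h1 : Φ p (fun n => G p (n + 1) n) n = Φ p (G p (n + 1)) n :=
      hs p _ _ n fun m hm => (hstab2 p m (n + 1) (by omega)).symm
    rw [h1, ← hG]
    exact hstab2 p n (n + 2) (by omega)
  · intro p y hy
    funext n
    have h1 : ∀ n k, n < k → y n = G p k n := by
      intro n
      induction n using Nat.strong_induction_on with
      | _ n ih =>
        intro k hk
        obtain ⟨k', rfl⟩ : ∃ k', k = k' + 1 := ⟨k - 1, by omega⟩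
        rw [hG p k']
        have h2 := hs p y (G p k') n fun m hm => ih m hm k' (by omega)
        rw [hy] at h2
        exact h2
    exact h1 n (n + 1) (by omega)

end Pool.Agent.Q214.BH
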