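import Pool.Agent.Q214.BH.Space

set_option autoImplicit false

/-!
# Project BH: the assembly
-/

namespace Pool.Agent.Q214.BH

open Topology TopologicalSpace Set

lemma one_add_lt {α : Ordinal.{0}} (h : α < Ordinal.omega 1) : 1 + α < Ordinal.omega 1 := by
  rcases lt_or_ge α Ordinal.omega0 with h1 | h1
  · refine lt_trans (Ordinal.isPrincipal_add_omega0 Ordinal.one_lt_omega0 h1) ?_
    exact Ordinal.omega0_lt_omega_one
  · rwa [Ordinal.one_add_of_omega0_le h1]

section

variable {H : Type} [Group H]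

lemma zt_one : zt 1 = 0 := by simp [zt]

lemma zt_mul (a b : Multiplicative ℤ) : zt (a * b) = zt a + zt b := by simp [zt]

lemma zt_inj {a : Multiplicative ℤ} (h : zt a = 0) : a = 1 := by
  simp only [zt, Int.cast_eq_zero] at h
  exact h

/-- the space of the inputs -/
def QQ (H : Type) : Type := H × (ℕ → ℕ) × ℤ_[3]

/-- the points of the space of the inputs -/
def mkQ (h : H) (z : ℕ → ℕ) (w : ℤ_[3]) : QQ H := (h, z, w)

noncomputable instance instActQQ : MulAction (H × Multiplicative ℤ) (QQ H) where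
  smul γ a := (γ.1 * a.1, a.2.1, a.2.2 + zt γ.2)
  one_smul a := by
    change (1 * a.1, a.2.1, a.2.2 + zt 1) = a
    rw [zt_one, one_mul, add_zero]; rfl
  mul_smul γ δ a := by
    change ((γ.1 * δ.1) * a.1, a.2.1, a.2.2 + zt (γ.2 * δ.2)) =
      (γ.1 * (δ.1 * a.1), a.2.1, (a.2.2 + zt δ.2) + zt γ.2)
    rw [zt_mul, mul_assoc, add_assoc, add_comm (zt δ.2)]

lemma smul_QQ (γ : H × Multiplicative ℤ) (h : H) (z : ℕ → ℕ) (w : ℤ_[3]) :
    γ • mkQ h z w = mkQ (γ.1 * h) z (w + zt γ.2) := rfl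

noncomputable instance instTopQQ : TopologicalSpace (QQ H) :=
  letI : TopologicalSpace H := ⊥
  inferInstanceAs (TopologicalSpace (H × (ℕ → ℕ) × ℤ_[3]))

instance instPolQQ [Countable H] : PolishSpace (QQ H) :=
  letI : TopologicalSpace H := ⊥
  haveI : DiscreteTopology H := ⟨rfl⟩
  inferInstanceAs (PolishSpace (H × (ℕ → ℕ) × ℤ_[3]))

lemma zdQQ (hZ : S_ZD) : IsTopologicalBasis {s : Set (QQ H) | IsClopen s} := by
  let _ : TopologicalSpace H := ⊥
  have _ : DiscreteTopology H := ⟨rfl⟩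
  obtain ⟨hp, hpi, -, hd, h3⟩ := hZ
  exact hp _ _ (hd H) (hp _ _ (hpi _ _ fun _ => hd ℕ) h3)

lemma cont_smul_QQ (γ : H × Multiplicative ℤ) : Continuous (fun a : QQ H => γ • a) := by
  letI : TopologicalSpace H := ⊥
  haveI : DiscreteTopology H := ⟨rfl⟩
  have h1 : Continuous (fun h : H => γ.1 * h) := continuous_of_discreteTopology
  have h2 : Continuous (fun a : H × (ℕ → ℕ) × ℤ_[3] => (γ.1 * a.1, a.2.1, a.2.2 + zt γ.2)) :=
    (h1.comp continuous_fst).prodMk ((continuous_fst.comp continuous_snd).prodMk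
      ((continuous_snd.comp continuous_snd).add continuous_const))
  exact h2

lemma cont_mk_QQ (h : H) : Continuous (fun p : (ℕ → ℕ) × ℤ_[3] => mkQ h p.1 p.2) := by
  letI : TopologicalSpace H := ⊥
  have h2 : Continuous (fun p : (ℕ → ℕ) × ℤ_[3] => (h, p.1, p.2)) := by fun_prop
  exact h2

lemma free_QQ (γ : H × Multiplicative ℤ) (a : QQ H) (h : γ • a = a) : γ = 1 := by
  have h1 : γ.1 * a.1 = a.1 := congrArg (fun b : QQ H => b.1) h
  have h2 : a.2.2 + zt γ.2 = a.2.2 := congrArg (fun b : QQ H => b.2.2) h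
  have h3 : γ.1 = 1 := mul_eq_right.1 h1
  have h4 : γ.2 = 1 := zt_inj (by simpa using h2)
  exact Prod.ext h3 h4

lemma isClopen_leafVal (t : BC (Clopens (ℕ → ℕ))) : IsClopen {z | t.leafVal z} := by
  cases t with
  | lf S => exact S.isClopen
  | nd f => exact isClopen_empty

lemma cont_pat (u g d y : H) (t : BC (Clopens (ℕ → ℕ))) (hinj : Function.Injective (hw u g)) :
    Continuous (fun a : QQ H => pat u g d y t a.1 a.2.1) := by
  letI : TopologicalSpace H := ⊥
  haveI : DiscreteTopology H := ⟨rfl⟩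
  have h1 : ∀ h : H, Continuous (fun z : ℕ → ℕ => pat u g d y t h z) := by
    intro h
    rw [continuous_bool_rng true]
    have h2 : (fun z : ℕ → ℕ => pat u g d y t h z) ⁻¹' {true} =
        {z | h = d ∨ ∃ s, h = y * hw u g s ∧ (t.sub s).leafVal z} := by
      ext z
      simp [pat]
    rw [h2]
    by_cases hd : h = d
    · have : {z : ℕ → ℕ | h = d ∨ ∃ s, h = y * hw u g s ∧ (t.sub s).leafVal z} = univ := by
        ext z; simp [hd]
      rw [this]; exact isClopen_univ
    · by_cases hs : ∃ s, h = y * hw u g s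
      · obtain ⟨s, hs⟩ := hs
        have : {z : ℕ → ℕ | h = d ∨ ∃ s, h = y * hw u g s ∧ (t.sub s).leafVal z} =
            {z | (t.sub s).leafVal z} := by
          ext z
          simp only [mem_ofPred_eq, hd, false_or]
          constructor
          · rintro ⟨s', h3, h4⟩
            have h5 : hw u g s = hw u g s' := by
              rw [hs] at h3; exact mul_left_cancel h3
            rw [hinj h5]; exact h4
          · intro h4; exact ⟨s, hs, h4⟩
        rw [this]; exact isClopen_leafVal _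
      · have : {z : ℕ → ℕ | h = d ∨ ∃ s, h = y * hw u g s ∧ (t.sub s).leafVal z} = ∅ := by
          ext z
          simp only [mem_ofPred_eq, hd, false_or, mem_empty_iff_false, iff_false]
          rintro ⟨s', h3, -⟩
          exact hs ⟨s', h3⟩
        rw [this]; exact isClopen_empty
  have h2 : Continuous (fun a : H × (ℕ → ℕ) => pat u g d y t a.1 a.2) :=
    continuous_prod_of_discrete_left.mpr h1
  have h3 : Continuous (fun a : H × (ℕ → ℕ) × ℤ_[3] => (a.1, a.2.1)) := by fun_prop
  exact h2.comp h3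

end

section

variable {Γ : Type} [Group Γ]

/-- the elements which occur in the rule -/
def wnd (τ : Γ) (G : Gens Γ) : Set Γ :=
  {1, τ, G.q, G.u, G.u⁻¹, G.g, G.g⁻¹, G.c, G.d, G.c * G.u, G.y * G.u}

lemma finite_wnd (τ : Γ) (G : Gens Γ) : (wnd τ G).Finite := by
  unfold wnd
  exact Set.toFinite _

lemma rule_congr {τ : Γ} {G : Gens Γ} {F F' : Γ → Lb} (h : ∀ γ ∈ wnd τ G, F γ = F' γ)
    (hF : Rule τ G F) : Rule τ G F' := by
  have h1 : F 1 = F' 1 := h _ (by simp [wnd])
  have h2 : F τ = F' τ := h _ (by simp [wnd])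
  have h3 : F G.q = F' G.q := h _ (by simp [wnd])
  have h4 : F G.u = F' G.u := h _ (by simp [wnd])
  have h5 : F G.u⁻¹ = F' G.u⁻¹ := h _ (by simp [wnd])
  have h6 : F G.g = F' G.g := h _ (by simp [wnd])
  have h7 : F G.g⁻¹ = F' G.g⁻¹ := h _ (by simp [wnd])
  have h8 : F G.c = F' G.c := h _ (by simp [wnd])
  have h9 : F G.d = F' G.d := h _ (by simp [wnd])
  have h10 : F (G.c * G.u) = F' (G.c * G.u) := h _ (by simp [wnd])
  have h11 : F (G.y * G.u) = F' (G.y * G.u) := h _ (by simp [wnd])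
  unfold Rule Rule0 at hF ⊢
  rw [← h1, ← h2, ← h3, ← h4, ← h5, ← h6, ← h7, ← h8, ← h9, ← h10, ← h11]
  exact hF

/-- the labelling problem -/
noncomputable def theLCL (τ : Γ) (G : Gens Γ) : LCL Γ where
  Lab := Lb
  fin := inferInstance
  S := (finite_wnd τ G).toFinset
  A := {π | ∃ F : Γ → Lb, (∀ s, F s.1 = π s) ∧ Rule τ G F}

lemma theLCL_iff (τ : Γ) (G : Gens Γ) {X : Type} [MulAction Γ X] (f : X → Lb) :
    (theLCL τ G).IsLabeling f ↔ ∀ x, Rule τ G (fun γ => f (γ • x)) := by
  constructor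
  · intro h x
    obtain ⟨F, h1, h2⟩ := h x
    refine rule_congr (fun γ hγ => ?_) h2
    exact h1 ⟨γ, (finite_wnd τ G).mem_toFinset.2 hγ⟩
  · intro h x
    exact ⟨fun γ => f (γ • x), fun s => rfl, h x⟩

end

section

variable {Γ : Type} [Group Γ]

/-- the generators in the free product -/
def gensFP (G : Gens Γ) : Gens (FP Γ) where
  q := Monoid.Coprod.inl G.q
  u := Monoid.Coprod.inl G.u
  g := Monoid.Coprod.inl G.g
  c := Monoid.Coprod.inl G.c
  d := Monoid.Coprod.inl G.d
  y := Monoid.Coprod.inl G.y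

lemma rule0_gensFP (G : Gens Γ) (F : FP Γ → Lb) (h : Rule0 (gensFP G) F) :
    Rule0 G (fun γ => F (Monoid.Coprod.inl γ)) := by
  unfold Rule0 gensFP at h
  unfold Rule0
  simp only [← map_inv, ← map_mul] at h
  rw [← map_one (Monoid.Coprod.inl : Γ →* FP Γ)] at h
  exact h

lemma hw_map {Γ' : Type} [Group Γ'] (φ : Γ →* Γ') (u g : Γ) (s : List ℕ) :
    hw (φ u) (φ g) s = φ (hw u g s) := by
  induction s with
  | nil => simp [hw]
  | cons k s ih => simp [hw, ih]

lemma treeComm_map {Γ' : Type} [Group Γ'] (φ : Γ →* Γ') {α : Type} {u g c d : Γ} {t : BC α}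
    (h : TreeComm u g c d t) : TreeComm (φ u) (φ g) (φ c) (φ d) t := by
  intro s hs
  rw [hw_map]
  have := (h s hs).map φ
  simpa using this

lemma tau_mul_tau : tau Γ * tau Γ = 1 := by
  unfold tau
  rw [← map_mul]
  have : (Multiplicative.ofAdd (1 : ZMod 2)) * Multiplicative.ofAdd 1 = 1 := by decide
  rw [this, map_one]

lemma tau_ne_one : tau Γ ≠ 1 := by
  unfold tau
  intro h
  rw [← map_one (Monoid.Coprod.inr : Multiplicative (ZMod 2) →* FP Γ)] at h
  have := Monoid.Coprod.inr_injective h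
  revert this
  decide

end

/-- the assembly -/
theorem main_of (hSOL : S_SOL) (hGRP : S_GRP) (hLOW : S_LOW) (k1 : S_H1) (k2 : S_H2) (k3 : S_H3)
    (k4 : S_H4) (k5 : S_H5) (hZ : S_ZD) (hCTL : S_CTL) : S_MAIN := by
  intro α hα
  obtain ⟨C, hCm, hCn⟩ := k3 (1 + α) (one_add_lt hα)
  obtain ⟨tC, htC⟩ := k5 C hCm
  set t : BC (Clopens (ℕ → ℕ)) := BC.nd fun _ => tC with ht
  obtain ⟨H, _, _, u, g, c, d, y, κ, hG⟩ := hGRP _ t rfl
  let φ : H →* FP (H × Multiplicative ℤ) :=
    (Monoid.Coprod.inl : (H × Multiplicative ℤ) →* FP (H × Multiplicative ℤ)).comp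
      (MonoidHom.inl H (Multiplicative ℤ))
  refine ⟨FP (H × Multiplicative ℤ), inferInstance, inferInstance,
    theLCL (tau _) (gensFP (gensH u g c d y)), ?_, ?_⟩
  · -- the Borel solution
    intro X _ _ _ hm hfree
    have hcq : ∀ x : H, Commute (gensFP (gensH u g c d y)).q (φ x) := by
      intro x
      have h1 : Commute ((1, Multiplicative.ofAdd 1) : H × Multiplicative ℤ)
          ((x, 1) : H × Multiplicative ℤ) := by
        change _ * _ = _ * _
        simp
      exact h1.map (Monoid.Coprod.inl : (H × Multiplicative ℤ) →* FP (H × Multiplicative ℤ))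
    obtain ⟨f, hf1, hf2⟩ := hSOL (FP (H × Multiplicative ℤ)) (tau _)
      (gensFP (gensH u g c d y)) _ t rfl tau_mul_tau tau_ne_one
      (by
        change φ c * φ c = 1
        rw [← map_mul, hG.cc, map_one])
      (by
        intro n hn
        have h1 : (Monoid.Coprod.inl : (H × Multiplicative ℤ) →* FP (H × Multiplicative ℤ))
            ((gensH u g c d y).q ^ n) = 1 := by
          rw [map_zpow]; exact hn
        rw [← map_one (Monoid.Coprod.inl : (H × Multiplicative ℤ) →* FP _)] at h1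
        have h2 := congrArg Prod.snd (Monoid.Coprod.inl_injective h1)
        have h3 : (Multiplicative.ofAdd (1 : ℤ)) ^ n = 1 := h2
        rw [← ofAdd_zsmul, ofAdd_eq_one] at h3
        simpa using h3)
      (hcq u) (hcq g) (hcq c) (hcq d) (hcq y) (treeComm_map φ hG.comm) X hm hfree
    exact ⟨f, (theLCL_iff _ _ f).2 hf1, hf2⟩
  · -- no solution of the class
    intro hB
    obtain ⟨F, tF, pF, aF, hFz, hFc, hFf, hFβ⟩ := hCTL (H × Multiplicative ℤ) (QQ H) (zdQQ hZ)
      cont_smul_QQ free_QQ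
    obtain ⟨f, hf1, hf2⟩ := hB F hFz hFc hFf
    have hf1' := (theLCL_iff _ _ f).1 hf1
    have hfm : ∀ U : Set Lb, @MeasurableSet F (borel F) (f ⁻¹' U) := fun U =>
      k1 F _ _ (hf2 U)
    obtain ⟨Ψ, hΨc, hΨe, hΨβ⟩ := hFβ (fun x => (f x).β) (hfm {l | l.β = true})
      (fun x => by
        have h1 := (hf1' x).1
        simp only [one_smul] at h1
        exact h1)
      (fun a => pat u g d y t a.1 a.2.1) (cont_pat u g d y t hG.inj)
    have hcz : ∀ (h : H) (z : ℕ → ℕ), Continuous (fun w : ℤ_[3] => Ψ (mkQ h z w)) := by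
      intro h z
      exact hΨc.comp ((cont_mk_QQ h).comp (continuous_const.prodMk continuous_id))
    have key := hLOW H u g c d y κ t rfl hG (fun h z w => f (Ψ (mkQ h z w)))
      (by
        intro h z l
        let _ : MeasurableSpace F := borel F
        have _ : BorelSpace F := ⟨rfl⟩
        let _ : MeasurableSpace ℤ_[3] := borel ℤ_[3]
        have _ : BorelSpace ℤ_[3] := ⟨rfl⟩
        exact (hcz h z).measurable (hfm {l}))
      (by
        intro h z w
        have h1 := rule0_gensFP _ _ (hf1' (Ψ (mkQ h z w))).2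
        have h2 : (fun γ : H × Multiplicative ℤ =>
            f ((Monoid.Coprod.inl γ : FP (H × Multiplicative ℤ)) • Ψ (mkQ h z w))) =
            fun γ => f (Ψ (mkQ (γ.1 * h) z (w + zt γ.2))) := by
          funext γ
          rw [← hΨe, smul_QQ]
        rw [← h2]
        exact h1)
      (fun h z w => hΨβ _)
    -- the set of the `z` is of the class
    have hA : Sigma0 (1 + α) {p : (ℕ → ℕ) × ℤ_[3] | (f (Ψ (mkQ 1 p.1 p.2))).B.P = true} :=
      k2 _ _ (fun p : (ℕ → ℕ) × ℤ_[3] => Ψ (mkQ 1 p.1 p.2)) (hΨc.comp (cont_mk_QQ 1))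
        _ _ (hf2 {l | l.B.P = true})
    have hA2 := k4 _ _ _ _ hA
    have hC : {z : ℕ → ℕ | ¬ IsMeagre {w : ℤ_[3] | (z, w) ∈
        {p : (ℕ → ℕ) × ℤ_[3] | (f (Ψ (mkQ 1 p.1 p.2))).B.P = true}}} = C := by
      ext z
      have h1 := key z
      have h2 : (∃ k, (t.child k).val z) ↔ z ∈ C := by
        rw [htC z]
        exact ⟨fun ⟨_, h⟩ => h, fun h => ⟨0, h⟩⟩
      rw [h2] at h1
      simp only [mem_ofPred_eq]
      constructor
      · intro h3
        by_contra h4
        refine h3 ?_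
        filter_upwards [h1] with w hw
        exact fun h5 => h4 (hw.1 h5)
      · intro h3
        refine not_isMeagre_of_mem_residual ?_
        filter_upwards [h1] with w hw
        exact hw.2 h3
    rw [hC] at hA2
    exact hCn hA2

end Pool.Agent.Q214.BH
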