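import Pool.Agent.Q214.BH.Stm2

set_option autoImplicit false

/-!
# Project BH: the space of decorated trees with its action of the free product
-/

namespace Pool.Agent.Q214.BH

open Topology TopologicalSpace Set

/-- the elements different from one -/
abbrev Ns (Γ : Type) [Group Γ] : Type := {γ : Γ // γ ≠ 1}

/-- decorated trees: the first step is at the head of the address -/
abbrev Tr (Γ Q : Type) [Group Γ] : Type := List (Ns Γ) → Q × Bool

/-- the space of decorated trees -/
def YY (Γ Q : Type) [Group Γ] : Type := Fin 3 × Q × (Γ → Tr Γ Q)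

/-- the difference of two adjacent colours -/
def stp (b : Bool) : Fin 3 := if b = true then 2 else 1

lemma stp_add (k : Fin 3) (b : Bool) : k + stp b + stp (!b) = k := by
  revert k b; decide

lemma stp_ne (k : Fin 3) (b : Bool) : k + stp b ≠ k := by
  revert k b; decide

lemma exists_stp (k k' : Fin 3) (h : k ≠ k') : ∃ b, k' = k + stp b := by
  revert k k'; decide

section

variable {Γ Q : Type} [Group Γ]

/-- replace the bit at the root -/
def setB (c : Bool) (A : Tr Γ Q) : Tr Γ Q
  | [] => ((A []).1, c)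
  | a :: l => A (a :: l)

/-- the tree with a given root and given branches -/
def joinT (q : Q × Bool) (br : Γ → Tr Γ Q) : Tr Γ Q
  | [] => q
  | a :: l => br a.1 l

open Classical in
/-- the point with a given side of the vertex and a given side of the neighbour -/
noncomputable def glue (k : Fin 3) (A B : Tr Γ Q) : YY Γ Q :=
  (k, (A []).1, fun δ => if h : δ = 1 then B else fun l => A (⟨δ, h⟩ :: l))

open Classical in
/-- the involution -/
noncomputable def tauY (y : YY Γ Q) : YY Γ Q :=
  (y.1 + stp (y.2.2 1 []).2, (y.2.2 1 []).1, fun δ => if h : δ = 1 then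
    joinT (y.2.1, !(y.2.2 1 []).2) y.2.2 else fun l => y.2.2 1 (⟨δ, h⟩ :: l))

lemma YY.ext' {y z : YY Γ Q} (h1 : y.1 = z.1) (h2 : y.2.1 = z.2.1)
    (h3 : ∀ δ l, y.2.2 δ l = z.2.2 δ l) : y = z := by
  obtain ⟨a, b, c⟩ := y
  obtain ⟨a', b', c'⟩ := z
  have h4 : c = c' := by
    funext δ l
    exact h3 δ l
  simp only at h1 h2
  rw [h1, h2, h4]

lemma tauY_glue (k : Fin 3) (A B : Tr Γ Q) :
    tauY (glue k A B) = glue (k + stp (B []).2) B (setB (!(B []).2) A) := by
  refine YY.ext' ?_ ?_ ?_
  · simp [tauY, glue]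
  · simp [tauY, glue]
  · intro δ l
    by_cases h : δ = 1
    · subst h
      cases l with
      | nil => simp [tauY, glue, joinT, setB]
      | cons a l => simp [tauY, glue, joinT, setB, a.2]
    · simp [tauY, glue, h]

lemma glue_setB (k : Fin 3) (c : Bool) (A B : Tr Γ Q) : glue k (setB c A) B = glue k A B := by
  refine YY.ext' ?_ ?_ ?_
  · simp [glue]
  · simp [glue, setB]
  · intro δ l
    by_cases h : δ = 1
    · simp [glue, h]
    · simp [glue, h, setB]

lemma tauY_tauY (y : YY Γ Q) : tauY (tauY y) = y := by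
  refine YY.ext' ?_ ?_ ?_
  · simp [tauY, joinT, stp_add]
  · simp [tauY, joinT]
  · intro δ l
    by_cases h : δ = 1
    · subst h
      cases l with
      | nil => simp [tauY, joinT]
      | cons a l => simp [tauY, joinT, a.2]
    · simp [tauY, joinT, h]

lemma tauY_ne (y : YY Γ Q) : tauY y ≠ y := by
  intro h
  have h1 : (tauY y).1 = y.1 := by rw [h]
  exact stp_ne _ _ h1

/-- the permutation of order two -/
noncomputable def tauP (Γ Q : Type) [Group Γ] : Equiv.Perm (YY Γ Q) :=
  ⟨tauY, tauY, tauY_tauY, tauY_tauY⟩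

/-- the action of the group of order two -/
noncomputable def homZ (Γ Q : Type) [Group Γ] :
    Multiplicative (ZMod 2) →* Equiv.Perm (YY Γ Q) where
  toFun m := if m = 1 then 1 else tauP Γ Q
  map_one' := by simp
  map_mul' := by
    have h2 : tauP Γ Q * tauP Γ Q = 1 := by
      exact Equiv.ext fun y => tauY_tauY y
    have key : ∀ x : Multiplicative (ZMod 2), x = 1 ∨ x = Multiplicative.ofAdd 1 := by decide
    have h3 : (Multiplicative.ofAdd (1 : ZMod 2)) ≠ 1 := by decide
    have h4 : (Multiplicative.ofAdd (1 : ZMod 2)) * Multiplicative.ofAdd 1 = 1 := by decide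
    intro a b
    rcases key a with rfl | rfl <;> rcases key b with rfl | rfl
    · simp
    · simp [h3]
    · simp [h3]
    · rw [h4]; simp [h3, h2]

variable [MulAction Γ Q]

/-- the action of `Γ` -/
def actG (γ : Γ) (y : YY Γ Q) : YY Γ Q := (y.1, γ • y.2.1, fun δ => y.2.2 (δ * γ))

lemma actG_one (y : YY Γ Q) : actG 1 y = y := by
  refine YY.ext' ?_ ?_ ?_ <;> simp [actG]

lemma actG_mul (γ γ' : Γ) (y : YY Γ Q) : actG (γ * γ') y = actG γ (actG γ' y) := by
  refine YY.ext' ?_ ?_ ?_ <;> simp [actG, mul_smul, mul_assoc]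

/-- the action of `Γ` -/
def homG (Γ Q : Type) [Group Γ] [MulAction Γ Q] : Γ →* Equiv.Perm (YY Γ Q) where
  toFun γ := ⟨actG γ, actG γ⁻¹, fun y => by rw [← actG_mul, inv_mul_cancel, actG_one],
    fun y => by rw [← actG_mul, mul_inv_cancel, actG_one]⟩
  map_one' := Equiv.ext fun y => actG_one y
  map_mul' := fun a b => Equiv.ext fun y => actG_mul a b y

noncomputable instance instYY : MulAction (FP Γ) (YY Γ Q) :=
  MulAction.compHom _ (Monoid.Coprod.lift (homG Γ Q) (homZ Γ Q))

lemma smul_inl (γ : Γ) (y : YY Γ Q) : (Monoid.Coprod.inl γ : FP Γ) • y = actG γ y := by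
  change (Monoid.Coprod.lift (homG Γ Q) (homZ Γ Q) (Monoid.Coprod.inl γ)) y = _
  rw [Monoid.Coprod.lift_apply_inl]; rfl

lemma smul_tau (y : YY Γ Q) : tau Γ • y = tauY y := by
  change (Monoid.Coprod.lift (homG Γ Q) (homZ Γ Q) (Monoid.Coprod.inr _)) y = _
  rw [Monoid.Coprod.lift_apply_inr]
  have h3 : (Multiplicative.ofAdd (1 : ZMod 2)) ≠ 1 := by decide
  simp [homZ, h3, tauP]

end

section

variable {Γ Q : Type} [Group Γ]

instance instCountableFP [Countable Γ] : Countable (FP Γ) := by
  have : Countable (FreeMonoid (Γ ⊕ Multiplicative (ZMod 2))) :=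
    inferInstanceAs (Countable (List (Γ ⊕ Multiplicative (ZMod 2))))
  exact (Monoid.Coprod.mk_surjective (M := Γ) (N := Multiplicative (ZMod 2))).countable

/-- induction in the free product -/
lemma FP.ind {p : FP Γ → Prop} (h1 : ∀ γ : Γ, p (Monoid.Coprod.inl γ)) (h2 : p (tau Γ))
    (h3 : ∀ a b, p a → p b → p (a * b)) (x : FP Γ) : p x := by
  induction x using Monoid.Coprod.induction_on with
  | inl m => exact h1 m
  | inr n =>
    have key : ∀ x : Multiplicative (ZMod 2), x = 1 ∨ x = Multiplicative.ofAdd 1 := by decide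
    rcases key n with rfl | rfl
    · have := h1 1
      rw [map_one] at this
      rw [map_one]
      exact this
    · exact h2
  | mul x y hx hy => exact h3 _ _ hx hy

variable [TopologicalSpace Q]

instance instTopYY : TopologicalSpace (YY Γ Q) :=
  inferInstanceAs (TopologicalSpace (Fin 3 × Q × (Γ → List (Ns Γ) → Q × Bool)))

instance instPolYY [Countable Γ] [PolishSpace Q] : PolishSpace (YY Γ Q) :=
  inferInstanceAs (PolishSpace (Fin 3 × Q × (Γ → List (Ns Γ) → Q × Bool)))

lemma zdYY (hZ : S_ZD) (hQ : IsTopologicalBasis {s : Set Q | IsClopen s}) :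
    IsTopologicalBasis {s : Set (YY Γ Q) | IsClopen s} := by
  obtain ⟨hp, hpi, -, hd, -⟩ := hZ
  exact hp _ _ (hd (Fin 3)) (hp _ _ hQ (hpi _ _ fun _ => hpi _ _ fun _ => hp _ _ hQ (hd Bool)))

lemma cont_fst : Continuous (fun y : YY Γ Q => y.1) :=
  continuous_fst (X := Fin 3) (Y := Q × (Γ → List (Ns Γ) → Q × Bool))

lemma cont_snd : Continuous (fun y : YY Γ Q => y.2) :=
  continuous_snd (X := Fin 3) (Y := Q × (Γ → List (Ns Γ) → Q × Bool))

lemma cont_q : Continuous (fun y : YY Γ Q => y.2.1) := continuous_fst.comp cont_snd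

lemma cont_br (δ : Γ) (l : List (Ns Γ)) : Continuous (fun y : YY Γ Q => y.2.2 δ l) :=
  (continuous_apply l).comp ((continuous_apply δ).comp (continuous_snd.comp cont_snd))

lemma continuous_mk {Z : Type} [TopologicalSpace Z] {f : Z → YY Γ Q}
    (h1 : Continuous fun z => (f z).1) (h2 : Continuous fun z => (f z).2.1)
    (h3 : ∀ δ l, Continuous fun z => (f z).2.2 δ l) : Continuous f := by
  have h4 : Continuous (fun z => (f z).2.2) := continuous_pi fun δ => continuous_pi fun l => h3 δ l
  exact Continuous.prodMk h1 (Continuous.prodMk h2 h4)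

lemma continuous_glue (k : Fin 3) :
    Continuous (fun z : Tr Γ Q × Tr Γ Q => glue k z.1 z.2) := by
  refine continuous_mk ?_ ?_ ?_
  · exact continuous_const
  · have h1 : Continuous (fun z : Tr Γ Q × Tr Γ Q => z.1 []) :=
      (continuous_apply _).comp continuous_fst
    have h2 : Continuous (fun z : Tr Γ Q × Tr Γ Q => (z.1 []).1) := continuous_fst.comp h1
    exact h2
  · intro δ l
    by_cases h : δ = 1
    · simp only [glue, h, dite_true]
      exact (continuous_apply l).comp continuous_snd
    · simp only [glue, h, dite_false]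
      exact (continuous_apply _).comp continuous_fst

lemma continuous_tauY : Continuous (tauY (Γ := Γ) (Q := Q)) := by
  have hb : Continuous (fun y : YY Γ Q => (y.2.2 1 []).2) := continuous_snd.comp (cont_br 1 [])
  refine continuous_mk ?_ ?_ ?_
  · have h1 : Continuous (fun z : Fin 3 × Bool => z.1 + stp z.2) := continuous_of_discreteTopology
    exact h1.comp (cont_fst.prodMk hb)
  · have h2 : Continuous (fun y : YY Γ Q => (y.2.2 1 []).1) :=
      continuous_fst.comp (cont_br (1 : Γ) [])
    exact h2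
  · intro δ l
    by_cases h : δ = 1
    · simp only [tauY, h, dite_true]
      cases l with
      | nil =>
        simp only [joinT]
        have h1 : Continuous (fun b : Bool => !b) := continuous_of_discreteTopology
        exact cont_q.prodMk (h1.comp hb)
      | cons a l => simp only [joinT]; exact cont_br _ _
    · simp only [tauY, h, dite_false]
      exact cont_br _ _

variable [MulAction Γ Q]

lemma continuous_actG (hc : ∀ γ : Γ, Continuous (fun x : Q => γ • x)) (γ : Γ) :
    Continuous (actG (Γ := Γ) (Q := Q) γ) := by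
  refine continuous_mk ?_ ?_ ?_
  · exact cont_fst
  · exact (hc γ).comp cont_q
  · intro δ l
    exact cont_br _ _

lemma continuous_FP (hc : ∀ γ : Γ, Continuous (fun x : Q => γ • x)) (g : FP Γ) :
    Continuous (fun y : YY Γ Q => g • y) := by
  induction g using FP.ind with
  | h1 γ => simp only [smul_inl]; exact continuous_actG hc γ
  | h2 => simp only [smul_tau]; exact continuous_tauY
  | h3 a b ha hb => simp only [mul_smul]; exact ha.comp hb

/-- the free part -/
def Fr (Γ Q : Type) [Group Γ] [MulAction Γ Q] : Set (YY Γ Q) :=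
  {y | ∀ g : FP Γ, g • y = y → g = 1}

omit [TopologicalSpace Q] in
lemma smul_mem_Fr (h : FP Γ) {y : YY Γ Q} (hy : y ∈ Fr Γ Q) : h • y ∈ Fr Γ Q := by
  intro g hg
  have h1 : (h⁻¹ * g * h) • y = y := by
    rw [mul_smul, mul_smul, hg, inv_smul_smul]
  have h2 := hy _ h1
  have h3 : g = h * (h⁻¹ * g * h) * h⁻¹ := by group
  rw [h3, h2]; group

omit [TopologicalSpace Q] in
lemma smul_mem_Fr_iff (h : FP Γ) {y : YY Γ Q} : h • y ∈ Fr Γ Q ↔ y ∈ Fr Γ Q := by
  refine ⟨fun hy => ?_, smul_mem_Fr h⟩
  have := smul_mem_Fr h⁻¹ hy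
  rwa [inv_smul_smul] at this

lemma isGδ_Fr [Countable Γ] [T2Space Q] (hc : ∀ γ : Γ, Continuous (fun x : Q => γ • x)) :
    IsGδ (Fr Γ Q) := by
  have : T2Space (YY Γ Q) := inferInstanceAs (T2Space (Fin 3 × Q × (Γ → List (Ns Γ) → Q × Bool)))
  have h1 : Fr Γ Q = ⋂ g : {g : FP Γ // g ≠ 1}, {y : YY Γ Q | g.1 • y = y}ᶜ := by
    ext y
    simp only [Fr, mem_ofPred_eq, mem_iInter, mem_compl_iff, Subtype.forall]
    exact ⟨fun h g hg hy => hg (h g hy), fun h g hy => by_contra fun hg => h g hg hy⟩
  rw [h1]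
  refine IsGδ.iInter_of_isOpen fun g => ?_
  exact (isClosed_eq (continuous_FP hc g.1) continuous_id).isOpen_compl

noncomputable instance instFr : MulAction (FP Γ) (Fr Γ Q) where
  smul g y := ⟨g • y.1, smul_mem_Fr g y.2⟩
  one_smul y := Subtype.ext (one_smul _ y.1)
  mul_smul a b y := Subtype.ext (mul_smul a b y.1)

omit [TopologicalSpace Q] in
lemma coe_smul (g : FP Γ) (y : Fr Γ Q) : ((g • y : Fr Γ Q) : YY Γ Q) = g • y.1 := rfl

end

end Pool.Agent.Q214.BH
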