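import Mathlib

set_option autoImplicit false

/-!
# Project BH (row MP_d9833d_lc): for every countable ordinal there is a countable group with a
# locally checkable labelling problem which is solvable in a Borel way but not in that Baire class

Definitions and the statements of the steps.
-/

namespace Pool.Agent.Q214.BH

open Topology TopologicalSpace Set

/-! ## The Borel hierarchy and the classes of the question -/

/-- `Sigma0 ξ A`: the set `A` is in the additive Borel class `Σ⁰_ξ`: for `ξ = 1` it is open, for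
`ξ > 1` it is a countable union of complements of sets of classes `Σ⁰_η`, `1 ≤ η < ξ`. -/
inductive Sigma0 {X : Type} [TopologicalSpace X] : Ordinal.{0} → Set X → Prop
  | of_isOpen (U : Set X) : IsOpen U → Sigma0 1 U
  | of_union (ξ : Ordinal.{0}) (A : ℕ → Set X) (η : ℕ → Ordinal.{0}) :
      (∀ n, 1 ≤ η n) → (∀ n, η n < ξ) → (∀ n, Sigma0 (η n) (A n)) → Sigma0 ξ (⋃ n, (A n)ᶜ)

/-- a locally checkable labelling problem on `Γ`: a finite set of labels, a finite window and a set
of allowed patterns -/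
structure LCL (Γ : Type) where
  /-- the labels -/
  Lab : Type
  /-- there are finitely many labels -/
  fin : Finite Lab
  /-- the window -/
  S : Finset Γ
  /-- the allowed patterns -/
  A : Set (S → Lab)

/-- `f` is a labelling of `X` for the problem `P` -/
def LCL.IsLabeling {Γ : Type} [Group Γ] (P : LCL Γ) {X : Type} [MulAction Γ X] (f : X → P.Lab) :
    Prop :=
  ∀ x : X, (fun γ : P.S => f (γ.1 • x)) ∈ P.A

/-- the class `BOREL(Γ)` -/
def InBorel {Γ : Type} [Group Γ] (P : LCL Γ) : Prop :=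
  ∀ (X : Type) [MeasurableSpace X] [StandardBorelSpace X] [MulAction Γ X],
    (∀ γ : Γ, Measurable (fun x : X => γ • x)) → (∀ (γ : Γ) (x : X), γ • x = x → γ = 1) →
    ∃ f : X → P.Lab, P.IsLabeling f ∧ ∀ l, MeasurableSet (f ⁻¹' {l})

/-- the class `BAIRE_α(Γ)` -/
def InBaire {Γ : Type} [Group Γ] (α : Ordinal.{0}) (P : LCL Γ) : Prop :=
  ∀ (X : Type) [TopologicalSpace X] [PolishSpace X] [MulAction Γ X],
    IsTopologicalBasis {s : Set X | IsClopen s} →
    (∀ γ : Γ, Continuous (fun x : X => γ • x)) → (∀ (γ : Γ) (x : X), γ • x = x → γ = 1) →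
    ∃ f : X → P.Lab, P.IsLabeling f ∧ ∀ U : Set P.Lab, Sigma0 (1 + α) (f ⁻¹' U)

/-! ## Trees -/

/-- well-founded trees with infinite branching, leaves labelled by elements of `α` -/
inductive BC (α : Type) : Type
  | lf (a : α) : BC α
  | nd (f : ℕ → BC α) : BC α

namespace BC

variable {α : Type}

/-- the `k`-th child -/
def child : BC α → ℕ → BC α
  | lf a, _ => lf a
  | nd f, k => f k

/-- the subtree at a node; the last step of the path is at the head of the list -/
def sub (t : BC α) : List ℕ → BC α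
  | [] => t
  | k :: s => (sub t s).child k

/-- not a leaf -/
def isNd : BC α → Bool
  | lf _ => false
  | nd _ => true

/-- the value of a tree of clopen sets: at a leaf the membership, at a node: no child has
the value true -/
def val {Z : Type} [TopologicalSpace Z] : BC (Clopens Z) → Z → Prop
  | lf S, z => z ∈ S
  | nd f, z => ¬ ∃ k, val (f k) z

/-- the value of a leaf (false at the other nodes) -/
def leafVal {Z : Type} [TopologicalSpace Z] : BC (Clopens Z) → Z → Prop
  | lf S, z => z ∈ S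
  | nd _, _ => False

end BC

/-- `h [] = 1`, `h (k :: s) = u g^k (h s)` -/
def hw {Γ : Type} [Group Γ] (u g : Γ) : List ℕ → Γ
  | [] => 1
  | k :: s => u * g ^ k * hw u g s

/-! ## The labelling problem -/

/-- labels of a reachability gadget with `n` moves: `P` = a target can be reached, `ptr` = the next
move (`none`: stop here), `E` = marks on the `q`-line, `e` = two colours, `k` = counter -/
structure RL (n : ℕ) : Type where
  P : Bool
  ptr : Option (Fin n)
  E : Bool
  e : Bool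
  k : Fin 3

instance (n : ℕ) : Finite (RL n) :=
  Finite.of_injective (fun a : RL n => (a.P, a.ptr, a.E, a.e, a.k)) (by
    rintro ⟨a, b, c, d, e⟩ ⟨a', b', c', d', e'⟩ h
    simp only [Prod.mk.injEq] at h
    obtain ⟨rfl, rfl, rfl, rfl, rfl⟩ := h
    rfl)

/-- add a mark to a counter which stops at 2 -/
def cap (k : Fin 3) (b : Bool) : Fin 3 :=
  if b = true then (if k = 0 then 1 else 2) else k

/-- the rule of the reachability gadget at a point: `t` = the point is a target, `a` the label of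
the point, `aq` the label of the next point on its `q`-line, `s i` the label of the point after
the move `i` -/
def ReachOK {n : ℕ} (t : Bool) (a aq : RL n) (s : Fin n → RL n) : Prop :=
  aq.P = a.P ∧ aq.ptr = a.ptr ∧
  (a.P = false → t = false ∧ ∀ i, (s i).P = false) ∧
  (a.P = true →
    (a.ptr = none → t = true) ∧
    (∀ i, a.ptr = some i → (s i).P = true ∧
      aq.k = cap (if a.E = true then 0 else a.k) (s i).E ∧ (aq.E = true → aq.k = 2)) ∧
    (a.E = false → aq.e ≠ a.e))

/-- the labels -/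
structure Lb : Type where
  β : Bool
  m : Bool
  e₁ : Bool
  D : RL 5
  φ : RL 2
  B : RL 1
  act : Bool

instance : Finite Lb :=
  Finite.of_injective (fun a : Lb => (a.β, a.m, a.e₁, a.D, a.φ, a.B, a.act)) (by
    rintro ⟨a, b, c, d, e, f, g⟩ ⟨a', b', c', d', e', f', g'⟩ h
    simp only [Prod.mk.injEq] at h
    obtain ⟨rfl, rfl, rfl, rfl, rfl, rfl, rfl⟩ := h
    rfl)

/-- the elements of the group which are used -/
structure Gens (Γ : Type) : Type where
  q : Γ
  u : Γ
  g : Γ
  c : Γ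
  d : Γ
  y : Γ

/-- the part of the rule which does not mention the involution `τ`; `F γ` is the label of `γ x` -/
def Rule0 {Γ : Type} [Group Γ] (G : Gens Γ) (F : Γ → Lb) : Prop :=
  ((F G.q).m = (F 1).m ∧ ((F 1).m = false → (F 1).β = false) ∧
    ((F 1).m = true → (F 1).β = false → (F G.q).β = false → (F G.q).e₁ ≠ (F 1).e₁)) ∧
  ReachOK (F 1).m (F 1).D (F G.q).D
    ![(F G.u).D, (F G.u⁻¹).D, (F G.g).D, (F G.g⁻¹).D, (F G.c).D] ∧
  ReachOK (F G.d).D.P (F 1).φ (F G.q).φ ![(F G.g⁻¹).φ, (F G.u⁻¹).φ] ∧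
  ((F G.d).D.P = true → (F 1).act = true) ∧
  ((F 1).act = true →
    (F G.g).act = true ∧ ((F (G.c * G.u)).φ.P = false → (F G.u).act = true) ∧
    ReachOK (if (F (G.c * G.u)).φ.P = true then (F (G.y * G.u)).m else !(F G.u).B.P)
      (F 1).B (F G.q).B ![(F G.g).B])

/-- the rule -/
def Rule {Γ : Type} [Group Γ] (τ : Γ) (G : Gens Γ) (F : Γ → Lb) : Prop :=
  (F τ).β ≠ (F 1).β ∧ Rule0 G F

/-! ## Statements of the steps -/

/-- the tree condition of the group: `d` commutes with the conjugates of `c` which belong to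
leaves (or to paths beyond leaves) -/
def TreeComm {Γ : Type} [Group Γ] {α : Type} (u g c d : Γ) (t : BC α) : Prop :=
  ∀ s : List ℕ, (t.sub s).isNd = false → Commute d ((hw u g s)⁻¹ * c * hw u g s)

open Classical in
/-- RS: Borel solutions of the reachability gadget -/
def S_RS : Prop :=
  ∀ (Γ : Type) [Group Γ] [Countable Γ] (q : Γ), (∀ n : ℤ, q ^ n = 1 → n = 0) →
    ∀ (n : ℕ) (s : Fin n → Γ), (∀ i, Commute q (s i)) →
    ∀ (X : Type) [MeasurableSpace X] [StandardBorelSpace X] [MulAction Γ X],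
      (∀ γ : Γ, Measurable (fun x : X => γ • x)) → (∀ (γ : Γ) (x : X), γ • x = x → γ = 1) →
      ∀ T : Set X, MeasurableSet T → (∀ x, q • x ∈ T ↔ x ∈ T) →
        ∃ R : X → RL n, (∀ l, MeasurableSet (R ⁻¹' {l})) ∧
          (∀ x, ReachOK (decide (x ∈ T)) (R x) (R (q • x)) (fun i => R (s i • x))) ∧
          ∀ x, ((R x).P = true ↔ ∃ m ∈ Submonoid.closure (Set.range s), m • x ∈ T)

/-- SOL: the Borel solution -/
def S_SOL : Prop :=
  ∀ (Γ : Type) [Group Γ] [Countable Γ] (τ : Γ) (G : Gens Γ) (α : Type) (t : BC α),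
    t.isNd = true → τ * τ = 1 → τ ≠ 1 → G.c * G.c = 1 → (∀ n : ℤ, G.q ^ n = 1 → n = 0) →
    Commute G.q G.u → Commute G.q G.g → Commute G.q G.c → Commute G.q G.d → Commute G.q G.y →
    TreeComm G.u G.g G.c G.d t →
    ∀ (X : Type) [MeasurableSpace X] [StandardBorelSpace X] [MulAction Γ X],
      (∀ γ : Γ, Measurable (fun x : X => γ • x)) → (∀ (γ : Γ) (x : X), γ • x = x → γ = 1) →
      ∃ f : X → Lb, (∀ x, Rule τ G (fun γ => f (γ • x))) ∧ ∀ l, MeasurableSet (f ⁻¹' {l})

/-- the properties of the group -/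
structure GrpOK {H : Type} [Group H] {α : Type} (u g c d y : H) (κ : H →* Multiplicative (ZMod 2))
    (t : BC α) : Prop where
  comm : TreeComm u g c d t
  cc : c * c = 1
  not_mem : ∀ s : List ℕ, (t.sub s).isNd = true → ∀ m ∈ Submonoid.closure {g⁻¹, u⁻¹},
    d * m * c * hw u g s * d⁻¹ ∉ Subgroup.closure {u, g, c}
  inj : Function.Injective (hw u g)
  κu : κ u = 1
  κg : κ g = 1
  κc : κ c = 1
  κd : κ d = 1
  κy : κ y ≠ 1

/-- GRP: the group exists -/
def S_GRP : Prop :=
  ∀ (α : Type) (t : BC α), t.isNd = true →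
    ∃ (H : Type) (_ : Group H) (_ : Countable H) (u g c d y : H)
      (κ : H →* Multiplicative (ZMod 2)), GrpOK u g c d y κ t

/-- the group elements in `H × ℤ` -/
def gensH {H : Type} [Group H] (u g c d y : H) : Gens (H × Multiplicative ℤ) where
  q := (1, Multiplicative.ofAdd 1)
  u := (u, 1)
  g := (g, 1)
  c := (c, 1)
  d := (d, 1)
  y := (y, 1)

open Classical in
/-- the input pattern -/
noncomputable def pat {H : Type} [Group H] (u g d y : H) (t : BC (Clopens (ℕ → ℕ)))
    (h : H) (z : ℕ → ℕ) : Bool :=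
  decide (h = d ∨ ∃ s, h = y * hw u g s ∧ (t.sub s).leafVal z)

/-- the canonical embedding of `ℤ` in the `3`-adic integers, multiplicative source -/
noncomputable def zt (n : Multiplicative ℤ) : ℤ_[3] := ((Multiplicative.toAdd n : ℤ) : ℤ_[3])

/-- GEN0: no two-colouring of the orbits of `w ↦ w + 1` on a non-meagre invariant set -/
def S_GEN0 : Prop :=
  ∀ m e : ℤ_[3] → Bool, @MeasurableSet ℤ_[3] (borel ℤ_[3]) {w | m w = true} →
    @MeasurableSet ℤ_[3] (borel ℤ_[3]) {w | e w = true} → (∀ w, m (w + 1) = m w) →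
    (∀ w, m w = true → e (w + 1) ≠ e w) → ∀ᶠ w in residual ℤ_[3], m w = false

/-- GEN: the reachability gadget tells the truth for generic `w` -/
def S_GEN : Prop :=
  ∀ (I : Type) [Countable I] (n : ℕ) (mv : Fin n → I → I) (A : Set I),
    (∀ i ∈ A, ∀ j, mv j i ∈ A) →
    ∀ (t₀ : I → Bool) (R : I → ℤ_[3] → RL n) (t : I → ℤ_[3] → Bool),
      (∀ i l, @MeasurableSet ℤ_[3] (borel ℤ_[3]) {w | R i w = l}) →
      (∀ᶠ w in residual ℤ_[3], ∀ i ∈ A, t i w = t₀ i) →
      (∀ᶠ w in residual ℤ_[3], ∀ i ∈ A,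
        ReachOK (t i w) (R i w) (R i (w + 1)) (fun j => R (mv j i) w)) →
      ∀ᶠ w in residual ℤ_[3], ∀ i ∈ A, ((R i w).P = true ↔
        ∃ i', Relation.ReflTransGen (fun a b => ∃ j, b = mv j a) i i' ∧ t₀ i' = true)

/-- LOW: a labelling with the prescribed input pattern has the right value at the root, for
generic `w` -/
def S_LOW : Prop :=
  ∀ (H : Type) [Group H] [Countable H] (u g c d y : H) (κ : H →* Multiplicative (ZMod 2))
    (t : BC (Clopens (ℕ → ℕ))), t.isNd = true → GrpOK u g c d y κ t →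
    ∀ f : H → (ℕ → ℕ) → ℤ_[3] → Lb,
      (∀ h z l, @MeasurableSet ℤ_[3] (borel ℤ_[3]) {w | f h z w = l}) →
      (∀ h z w, Rule0 (gensH u g c d y)
        (fun γ : H × Multiplicative ℤ => f (γ.1 * h) z (w + zt γ.2))) →
      (∀ h z w, (f h z w).β = pat u g d y t h z) →
      ∀ z, ∀ᶠ w in residual ℤ_[3], ((f 1 z w).B.P = true ↔ ∃ k, (t.child k).val z)

/-- HIER: sets in the classes are Borel -/
def S_H1 : Prop :=
  ∀ (X : Type) [TopologicalSpace X] (ξ : Ordinal.{0}) (A : Set X), Sigma0 ξ A →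
    @MeasurableSet X (borel X) A

/-- HIER: continuous preimages -/
def S_H2 : Prop :=
  ∀ (X Y : Type) [TopologicalSpace X] [TopologicalSpace Y] (f : X → Y), Continuous f →
    ∀ (ξ : Ordinal.{0}) (A : Set Y), Sigma0 ξ A → Sigma0 ξ (f ⁻¹' A)

/-- HIER: the hierarchy does not collapse -/
def S_H3 : Prop :=
  ∀ ξ : Ordinal.{0}, ξ < Ordinal.omega 1 →
    ∃ C : Set (ℕ → ℕ), @MeasurableSet (ℕ → ℕ) (borel (ℕ → ℕ)) C ∧ ¬ Sigma0 ξ C

/-- HIER: the category quantifier does not increase the class -/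
def S_H4 : Prop :=
  ∀ (Z W : Type) [TopologicalSpace Z] [TopologicalSpace W] [SecondCountableTopology W]
    [BaireSpace W] (ξ : Ordinal.{0}) (A : Set (Z × W)), Sigma0 ξ A →
    Sigma0 ξ {z : Z | ¬ IsMeagre {w : W | (z, w) ∈ A}}

/-- HIER: Borel codes -/
def S_H5 : Prop :=
  ∀ C : Set (ℕ → ℕ), @MeasurableSet (ℕ → ℕ) (borel (ℕ → ℕ)) C →
    ∃ t : BC (Clopens (ℕ → ℕ)), ∀ z, z ∈ C ↔ t.val z

/-- the free product of `Γ` with the group of order two -/
abbrev FP (Γ : Type) [Group Γ] : Type := Monoid.Coprod Γ (Multiplicative (ZMod 2))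

/-- the involution -/
def tau (Γ : Type) [Group Γ] : FP Γ := Monoid.Coprod.inr (Multiplicative.ofAdd 1)

/-- NF: on the non-free part the edges `y, τ y` can be oriented in a Borel way such that every
`Γ`-orbit has an outgoing edge -/
def S_NF : Prop :=
  ∀ (Γ : Type) [Group Γ] [Countable Γ] (Y : Type) [MeasurableSpace Y] [StandardBorelSpace Y]
    [MulAction (FP Γ) Y],
    (∀ γ : FP Γ, Measurable (fun x : Y => γ • x)) →
    (∀ (γ : Γ) (x : Y), (Monoid.Coprod.inl γ : FP Γ) • x = x → γ = 1) →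
    (∀ x : Y, tau Γ • x ≠ x) →
    ∃ Q : Set Y, MeasurableSet Q ∧
      (∀ x : Y, (∃ γ : FP Γ, γ ≠ 1 ∧ γ • x = x) →
        ∃ γ : Γ, (Monoid.Coprod.inl γ : FP Γ) • x ∈ Q) ∧
      ∀ x ∈ Q, tau Γ • x ∉ Q

/-- CTL: the control lemma -/
def S_CTL : Prop :=
  ∀ (Γ : Type) [Group Γ] [Countable Γ] (Q : Type) [TopologicalSpace Q] [PolishSpace Q]
    [MulAction Γ Q], IsTopologicalBasis {s : Set Q | IsClopen s} →
    (∀ γ : Γ, Continuous (fun x : Q => γ • x)) → (∀ (γ : Γ) (x : Q), γ • x = x → γ = 1) →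
    ∃ (F : Type) (_ : TopologicalSpace F) (_ : PolishSpace F) (_ : MulAction (FP Γ) F),
      IsTopologicalBasis {s : Set F | IsClopen s} ∧
      (∀ γ : FP Γ, Continuous (fun x : F => γ • x)) ∧
      (∀ (γ : FP Γ) (x : F), γ • x = x → γ = 1) ∧
      ∀ β : F → Bool, @MeasurableSet F (borel F) {x | β x = true} →
        (∀ x, β (tau Γ • x) ≠ β x) → ∀ p : Q → Bool, Continuous p →
        ∃ Ψ : Q → F, Continuous Ψ ∧
          (∀ (γ : Γ) (a : Q), Ψ (γ • a) = (Monoid.Coprod.inl γ : FP Γ) • Ψ a) ∧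
          ∀ a, β (Ψ a) = p a

/-- the final theorem -/
def S_MAIN : Prop :=
  ∀ α : Ordinal.{0}, α < Ordinal.omega 1 →
    ∃ (Γ : Type) (_ : Group Γ) (_ : Countable Γ) (P : LCL Γ), InBorel P ∧ ¬ InBaire α P

end Pool.Agent.Q214.BH
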