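import Pool.Agent.Q214.BH.Stm

set_option autoImplicit false

/-!
# Project BH, statements used in the proof of the control lemma
-/

namespace Pool.Agent.Q214.BH

open Topology TopologicalSpace Set

/-- EMB: zero-dimensional Polish spaces are continuous retracts of the Baire space -/
def S_EMB : Prop :=
  ∀ (Q : Type) [TopologicalSpace Q] [PolishSpace Q] [Nonempty Q],
    IsTopologicalBasis {s : Set Q | IsClopen s} →
    ∃ (j : Q → ℕ → ℕ) (ρ : (ℕ → ℕ) → Q), Continuous j ∧ Continuous ρ ∧ ∀ q, ρ (j q) = q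

/-- DET: Borel determinacy with strategies as causal maps -/
def S_DET : Prop :=
  ∀ (X : Type) [Nonempty X] [Countable X] [TopologicalSpace X] [DiscreteTopology X]
    (W : Set ((ℕ → X) × (ℕ → X))),
    @MeasurableSet _ (borel ((ℕ → X) × (ℕ → X))) W →
    (∃ s : (ℕ → X) → (ℕ → X),
      (∀ b b' n, (∀ m, m < n → b m = b' m) → s b n = s b' n) ∧ ∀ b, (s b, b) ∈ W) ∨
    (∃ s : (ℕ → X) → (ℕ → X),
      (∀ a a' n, (∀ m, m ≤ n → a m = a' m) → s a n = s a' n) ∧ ∀ a, (a, s a) ∉ W)

/-- FIX: the fixed point of a strictly causal map depends continuously on parameters -/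
def S_FIX : Prop :=
  ∀ (P Y : Type) [TopologicalSpace P] [TopologicalSpace Y] [Nonempty Y]
    (Φ : P → (ℕ → Y) → ℕ → Y),
    Continuous (fun z : P × (ℕ → Y) => Φ z.1 z.2) →
    (∀ p y y' n, (∀ m, m < n → y m = y' m) → Φ p y n = Φ p y' n) →
    ∃ F : P → ℕ → Y, Continuous F ∧ (∀ p, Φ p (F p) = F p) ∧ ∀ p y, Φ p y = y → y = F p

/-- ZD: products and subspaces of spaces with a basis of clopen sets -/
def S_ZD : Prop :=
  (∀ (X Y : Type) [TopologicalSpace X] [TopologicalSpace Y],
    IsTopologicalBasis {s : Set X | IsClopen s} → IsTopologicalBasis {s : Set Y | IsClopen s} →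
    IsTopologicalBasis {s : Set (X × Y) | IsClopen s}) ∧
  (∀ (I : Type) (X : I → Type) [∀ i, TopologicalSpace (X i)],
    (∀ i, IsTopologicalBasis {s : Set (X i) | IsClopen s}) →
    IsTopologicalBasis {s : Set (∀ i, X i) | IsClopen s}) ∧
  (∀ (X Y : Type) [TopologicalSpace X] [TopologicalSpace Y] (f : X → Y),
    Topology.IsInducing f → IsTopologicalBasis {s : Set Y | IsClopen s} →
    IsTopologicalBasis {s : Set X | IsClopen s}) ∧
  (∀ (X : Type) [TopologicalSpace X] [DiscreteTopology X],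
    IsTopologicalBasis {s : Set X | IsClopen s}) ∧
  IsTopologicalBasis {s : Set ℤ_[3] | IsClopen s}

end Pool.Agent.Q214.BH
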